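import Pool.Agent.MP_6961e8.ASM

/-!
There is a closed manifold (a flat torus `ℝ⁴ ⧸ 𝓛`) with a diffeomorphism having a `C¹`-robust
non-transverse heterodimensional cycle.
-/

namespace Pool.Agent.Results.MP_6961e8_an.RobustNonTransverseCycle

open Pool.Agent.MP_6961e8

/-- There are a lattice `𝓛` of `ℝ⁴` and a `C¹` diffeomorphism of the torus `ℝ⁴ ⧸ 𝓛` with a
`C¹`-robust non-transverse heterodimensional cycle. -/
theorem result : ∃ 𝓛 : AddSubgroup (Fin 4 → ℝ), IsLattice 𝓛 ∧
    ∃ f : TorusDiffeo 𝓛, HasRobustNonTransverseCycle f :=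
  ⟨LL, LL_isLattice, main⟩

end Pool.Agent.Results.MP_6961e8_an.RobustNonTransverseCycle
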